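import Pool.Agent.W500.FL.Stm

/-! Block complexity of the Liouville function of `K[X]`. -/

set_option autoImplicit false

open Pool.Agent.W500.FL Polynomial

namespace Pool.Agent.W392.FL

theorem main : S_RES → S_BLOCK := by
  classical
  intro hRES K _ _ hK n
  have hfin : Finite (degreeLT K n) := Finite.of_equiv _ (degreeLTEquiv K n).toEquiv.symm
  let _ : Fintype (degreeLT K n) := Fintype.ofFinite _
  have hcard : Fintype.card (degreeLT K n) = Fintype.card K ^ n := by
    rw [Fintype.card_congr (degreeLTEquiv K n).toEquiv]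
    simp
  have hset : {w : degreeLT K n → ℤ | ∃ F : K[X], F.Monic ∧ n ≤ F.natDegree ∧
      ∀ h : degreeLT K n, w h = lam (F + (h : K[X]))} =
      ((Fintype.piFinset (fun _ : degreeLT K n => ({1, -1} : Finset ℤ)) :
        Finset (degreeLT K n → ℤ)) : Set (degreeLT K n → ℤ)) := by
    ext w
    rw [Finset.mem_coe, Fintype.mem_piFinset]
    simp only [Finset.mem_insert, Finset.mem_singleton]
    constructor
    · rintro ⟨F, -, -, hw⟩ h
      rw [hw h]
      exact neg_one_pow_eq_or ℤ _
    · intro hw
      obtain ⟨F, hF1, hF2, hF3⟩ := hRES K hK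
        ((Finset.univ : Finset (degreeLT K n)).image (fun k : degreeLT K n => (k : K[X])))
        (fun k => if hk : k ∈ degreeLT K n then w ⟨k, hk⟩ else 1) (by
          intro k hk
          obtain ⟨k', -, rfl⟩ := Finset.mem_image.mp hk
          simp only [k'.2, dite_true]
          exact hw k') n
      refine ⟨F, hF1, hF2, fun h => ?_⟩
      have h1 := hF3 (h : K[X]) (Finset.mem_image.mpr ⟨h, Finset.mem_univ _, rfl⟩)
      rw [h1]
      simp only [h.2, dite_true]
  rw [hset, Set.ncard_coe_finset, Fintype.card_piFinset, Finset.prod_const, Finset.card_univ,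
    hcard]
  rfl

end Pool.Agent.W392.FL
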